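import Mathlib

/-!
# Minors, maximum average degree and path degeneracy (MP_e2473a_co)
-/

set_option autoImplicit false

open SimpleGraph

namespace PD18

/-- `M` is a minor of `G`: there are disjoint nonempty connected vertex sets `φ x` of `G`, one for each vertex `x`
of `M`, such that `G` has an edge between `φ x` and `φ y` whenever `x` and `y` are adjacent in `M` -/
def IsMinor {W V : Type} (M : SimpleGraph W) (G : SimpleGraph V) : Prop :=
  ∃ φ : W → Set V, (∀ x, (G.induce (φ x)).Connected) ∧ (∀ x y, x ≠ y → Disjoint (φ x) (φ y)) ∧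
    ∀ x y, M.Adj x y → ∃ a ∈ φ x, ∃ b ∈ φ y, G.Adj a b

/-- the class `C` of finite graphs is closed under minors -/
def MinorClosed (C : (V : Type) → SimpleGraph V → Prop) : Prop :=
  ∀ (W V : Type) [Finite W] [Finite V] (M : SimpleGraph W) (G : SimpleGraph V),
    IsMinor M G → C V G → C W M

/-- the maximum average degree of the class `C` is at most `d`: `2 |E(H)| ≤ d |V(H)|` for every nonempty subgraph `H`
of every member -/
def MadLE (C : (V : Type) → SimpleGraph V → Prop) (d : ℝ) : Prop :=
  ∀ (V : Type) [Finite V] (G : SimpleGraph V), C V G → ∀ H : G.Subgraph, H.verts.Nonempty →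
    2 * (H.edgeSet.ncard : ℝ) ≤ d * H.verts.ncard

/-- `Built p S E`: the graph with vertex set `S` and edge set that of `E` arises from the empty graph
by adding isolated vertices, vertices joined by one edge to an existing vertex, and paths of
length `p` with distinct existing end vertices and new internal vertices -/
inductive Built (p : ℕ) {V : Type} : Set V → SimpleGraph V → Prop
  | empty : Built p ∅ ⊥
  | isolated (S : Set V) (E : SimpleGraph V) (v : V) : Built p S E → v ∉ S → Built p (insert v S) E
  | pendant (S : Set V) (E : SimpleGraph V) (v u : V) : Built p S E → v ∉ S → u ∈ S →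
      Built p (insert v S) (E ⊔ SimpleGraph.fromEdgeSet {s(v, u)})
  | path (S : Set V) (E : SimpleGraph V) (f : ℕ → V) : Built p S E → Set.InjOn f (Set.Iic p) →
      f 0 ∈ S → f p ∈ S → (∀ i, 0 < i → i < p → f i ∉ S) →
      Built p (S ∪ f '' Set.Ioo 0 p)
        (E ⊔ SimpleGraph.fromEdgeSet {e | ∃ i < p, e = s(f i, f (i + 1))})

/-- `G` is `p`-path degenerate -/
def PathDegenerate (p : ℕ) {V : Type} (G : SimpleGraph V) : Prop := Built p Set.univ G

end PD18
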