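import Pool.Agent.LibPD18.Defs

/-!
# The girth bound for path degeneracy (MP_e2473a_co)
-/

set_option autoImplicit false

open SimpleGraph

namespace PD18

/-- two short paths with the same ends are equal -/
theorem path_unique {V : Type*} {G : SimpleGraph V} {g : ℕ}
    (hg : ∀ (a : V) (w : G.Walk a a), w.IsCycle → g ≤ w.length)
    {u v : V} (p q : G.Walk u v) (hp : p.IsPath) (hq : q.IsPath) (h : p.length + q.length < g) :
    p = q := by
  classical
  let H : SimpleGraph V := SimpleGraph.fromEdgeSet ({e | e ∈ p.edges} ∪ {e | e ∈ q.edges})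
  have hpe : ∀ e ∈ p.edges, e ∈ H.edgeSet := by
    intro e he
    rw [SimpleGraph.edgeSet_fromEdgeSet]
    exact ⟨Or.inl he, G.not_isDiag_of_mem_edgeSet (p.edges_subset_edgeSet he)⟩
  have hqe : ∀ e ∈ q.edges, e ∈ H.edgeSet := by
    intro e he
    rw [SimpleGraph.edgeSet_fromEdgeSet]
    exact ⟨Or.inr he, G.not_isDiag_of_mem_edgeSet (q.edges_subset_edgeSet he)⟩
  have hle : H ≤ G := by
    intro a b hab
    rw [SimpleGraph.fromEdgeSet_adj] at hab
    rcases hab.1 with h1 | h1
    · exact p.edges_subset_edgeSet h1
    · exact q.edges_subset_edgeSet h1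
  have hac : H.IsAcyclic := by
    intro a w hw
    have h1 := hg a (w.mapLe hle) (hw.mapLe hle)
    have h2 : w.length ≤ p.length + q.length := by
      calc w.length = w.edges.length := (w.length_edges).symm
        _ = w.edges.toFinset.card := (List.toFinset_card_of_nodup hw.edges_nodup).symm
        _ ≤ (p.edges.toFinset ∪ q.edges.toFinset).card := by
            apply Finset.card_le_card
            intro e he
            rw [List.mem_toFinset] at he
            have := w.edges_subset_edgeSet he
            rw [SimpleGraph.edgeSet_fromEdgeSet] at this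
            rcases this.1 with h3 | h3
            · exact Finset.mem_union_left _ (List.mem_toFinset.2 h3)
            · exact Finset.mem_union_right _ (List.mem_toFinset.2 h3)
        _ ≤ p.edges.toFinset.card + q.edges.toFinset.card := Finset.card_union_le _ _
        _ ≤ p.edges.length + q.edges.length := by
            gcongr <;> exact List.toFinset_card_le _
        _ = p.length + q.length := by simp
    simp only [Walk.length_map, Walk.mapLe] at h1
    omega
  have h3 := hac.path_unique ⟨p.transfer H hpe, hp.transfer hpe⟩ ⟨q.transfer H hqe, hq.transfer hqe⟩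
  have h4 : p.transfer H hpe = q.transfer H hqe := congrArg Subtype.val h3
  apply Walk.ext_support
  have h5 := congrArg Walk.support h4
  rwa [Walk.support_transfer, Walk.support_transfer] at h5

section cells
variable {V : Type*} (G : SimpleGraph V) (X : Set V)

/-- `v` is at distance at most `n` from `X` -/
def Hit (n : ℕ) (v : V) : Prop := ∃ x ∈ X, ∃ w : G.Walk v x, w.length ≤ n

/-- the distance from `X` -/
noncomputable def D (v : V) : ℕ := sInf {n | Hit G X n v}

variable {G X}

theorem Hit.mono {m n : ℕ} {v : V} (h : Hit G X m v) (hmn : m ≤ n) : Hit G X n v := by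
  obtain ⟨x, hx, w, hw⟩ := h
  exact ⟨x, hx, w, hw.trans hmn⟩

theorem D_le {n : ℕ} {v : V} (h : Hit G X n v) : D G X v ≤ n := Nat.sInf_le h

theorem hit_D {n : ℕ} {v : V} (h : Hit G X n v) : Hit G X (D G X v) v :=
  Nat.sInf_mem (s := {n | Hit G X n v}) ⟨n, h⟩

theorem hit_cons {n : ℕ} {u v : V} (h : G.Adj u v) (h' : Hit G X n v) : Hit G X (n + 1) u := by
  obtain ⟨x, hx, w, hw⟩ := h'
  exact ⟨x, hx, Walk.cons h w, by simpa using hw⟩

theorem exists_parent {n : ℕ} {v : V} (h : Hit G X (n + 1) v) (hD : D G X v = n + 1) :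
    ∃ u, G.Adj v u ∧ D G X u = n ∧ Hit G X n u := by
  obtain ⟨x, hx, w, hw⟩ := h
  cases w with
  | nil =>
    have : Hit G X 0 v := ⟨v, hx, Walk.nil, by simp⟩
    have := D_le this
    omega
  | @cons _ u _ hadj w' =>
    have hu : Hit G X n u := ⟨x, hx, w', by simpa using hw⟩
    refine ⟨u, hadj, ?_, hu⟩
    have h1 := D_le hu
    have h2 : D G X v ≤ D G X u + 1 := D_le (hit_cons hadj (hit_D hu))
    omega

open Classical in
/-- the parent of a vertex -/
noncomputable def par (G : SimpleGraph V) (X : Set V) (v : V) : V :=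
  if h : ∃ u, G.Adj v u ∧ D G X u + 1 = D G X v ∧ Hit G X (D G X u) u then h.choose else v

theorem par_spec {n : ℕ} {v : V} (h : Hit G X (n + 1) v) (hD : D G X v = n + 1) :
    G.Adj v (par G X v) ∧ D G X (par G X v) = n ∧ Hit G X n (par G X v) := by
  classical
  have hex : ∃ u, G.Adj v u ∧ D G X u + 1 = D G X v ∧ Hit G X (D G X u) u := by
    obtain ⟨u, h1, h2, h3⟩ := exists_parent h hD
    exact ⟨u, h1, by omega, by rw [h2]; exact h3⟩
  have hpar : par G X v = hex.choose := by
    unfold par; rw [dif_pos hex]
  have hs := hex.choose_spec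
  rw [← hpar] at hs
  refine ⟨hs.1, by omega, ?_⟩
  have : D G X (par G X v) = n := by omega
  rw [← this]; exact hs.2.2

/-- the centre of the cell of a vertex -/
noncomputable def cen (G : SimpleGraph V) (X : Set V) (v : V) : V := (par G X)^[D G X v] v

theorem cen_zero {v : V} (h : D G X v = 0) : cen G X v = v := by
  unfold cen; rw [h]; rfl

theorem cen_succ {n : ℕ} {v : V} (h : Hit G X (n + 1) v) (hD : D G X v = n + 1) :
    cen G X v = cen G X (par G X v) := by
  unfold cen
  rw [(par_spec h hD).2.1, hD, Function.iterate_succ_apply]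

theorem mem_of_D_zero {n : ℕ} {v : V} (h : Hit G X n v) (hD : D G X v = 0) : v ∈ X := by
  have := hit_D h
  rw [hD] at this
  obtain ⟨x, hx, w, hw⟩ := this
  have : w.length = 0 := by omega
  rwa [Walk.eq_of_length_eq_zero this]

theorem hit_zero {v : V} (h : v ∈ X) : Hit G X 0 v := ⟨v, h, Walk.nil, by simp⟩

theorem D_of_mem {v : V} (h : v ∈ X) : D G X v = 0 := by
  have := D_le (G := G) (hit_zero h); omega

/-- the chain from a vertex to its centre -/
theorem chain (n : ℕ) : ∀ v : V, Hit G X n v → D G X v = n →
    cen G X v ∈ X ∧ ∃ P : G.Walk v (cen G X v), P.IsPath ∧ P.length = n ∧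
      (∀ z ∈ P.support, cen G X z = cen G X v ∧ D G X z ≤ n ∧ Hit G X (D G X z) z ∧
        (z = v ∨ D G X z < n)) ∧
      ∀ a b, s(a, b) ∈ P.edges → (b = par G X a ∨ a = par G X b) := by
  induction n with
  | zero =>
    intro v h hD
    have hc := cen_zero (G := G) (X := X) hD
    refine ⟨by rw [hc]; exact mem_of_D_zero h hD, Walk.nil.copy rfl hc.symm, ?_, ?_, ?_, ?_⟩
    · simp
    · simp
    · intro z hz
      simp at hz
      subst hz
      refine ⟨rfl, by omega, by rw [hD]; exact h, Or.inl rfl⟩
    · intro a b hab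
      simp at hab
  | succ n ih =>
    intro v h hD
    obtain ⟨h1, h2, h3⟩ := par_spec h hD
    obtain ⟨hX, P, hP, hl, hs, he⟩ := ih _ h3 h2
    have hc := cen_succ h hD
    refine ⟨by rw [hc]; exact hX, (Walk.cons h1 P).copy rfl hc.symm, ?_, ?_, ?_, ?_⟩
    · rw [Walk.isPath_copy]
      rw [Walk.cons_isPath_iff]
      refine ⟨hP, fun hv => ?_⟩
      have := (hs v hv).2.1
      omega
    · simp [hl]
    · intro z hz
      simp only [Walk.support_copy, Walk.support_cons, List.mem_cons] at hz
      rcases hz with rfl | hz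
      · exact ⟨rfl, by omega, by rw [hD]; exact h, Or.inl rfl⟩
      · have := hs z hz
        exact ⟨by rw [this.1, hc], by omega, this.2.2.1, Or.inr (by omega)⟩
    · intro a b hab
      simp only [Walk.edges_copy, Walk.edges_cons, List.mem_cons] at hab
      rcases hab with hab | hab
      · rw [Sym2.eq_iff] at hab
        rcases hab with ⟨rfl, rfl⟩ | ⟨rfl, rfl⟩
        · exact Or.inl rfl
        · exact Or.inr rfl
      · exact he a b hab

end cells
section cells2
variable {V : Type*} {G : SimpleGraph V} {X : Set V}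

theorem in_cell {k : ℕ} (hg : ∀ (a : V) (w : G.Walk a a), w.IsCycle → 4 * k + 3 ≤ w.length)
    {u v : V} (hu : Hit G X k u) (hv : Hit G X k v) (h : G.Adj u v) (hc : cen G X u = cen G X v) :
    v = par G X u ∨ u = par G X v := by
  classical
  obtain ⟨-, P, hP, hPl, -, hPe⟩ := chain _ u (hit_D hu) rfl
  obtain ⟨-, Q, hQ, hQl, -, hQe⟩ := chain _ v (hit_D hv) rfl
  have h1 := D_le hu
  have h2 := D_le hv
  by_cases huQ : u ∈ Q.support
  · have h3 : (Walk.cons h.symm Walk.nil : G.Walk v u).IsPath := by
      simp [h.ne']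
    have h4 := path_unique hg (Q.takeUntil u huQ) (Walk.cons h.symm Walk.nil) (hQ.takeUntil huQ) h3 (by
      have := Q.length_takeUntil_le huQ
      simp only [Walk.length_cons, Walk.length_nil]
      omega)
    have h5 : s(v, u) ∈ Q.edges := by
      apply Walk.edges_takeUntil_subset Q huQ
      rw [h4]; simp
    exact (hQe v u h5).symm
  · have h3 : (Walk.cons h Q).IsPath := by
      rw [Walk.cons_isPath_iff]; exact ⟨hQ, huQ⟩
    have h4 := path_unique hg P ((Walk.cons h Q).copy rfl hc.symm) hP (by rwa [Walk.isPath_copy]) (by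
      simp only [Walk.length_copy, Walk.length_cons]
      omega)
    have h5 : s(u, v) ∈ P.edges := by
      rw [h4]; simp
    exact hPe u v h5

theorem cross {k : ℕ} (hg : ∀ (a : V) (w : G.Walk a a), w.IsCycle → 4 * k + 3 ≤ w.length)
    {u v u' v' : V} (hu : Hit G X k u) (hv : Hit G X k v) (hu' : Hit G X k u') (hv' : Hit G X k v')
    (h : G.Adj u v) (h' : G.Adj u' v') (hcu : cen G X u = cen G X u') (hcv : cen G X v = cen G X v')
    (hne : cen G X u ≠ cen G X v) : u = u' ∧ v = v' := by
  classical
  obtain ⟨-, P, hP, hPl, hPs, -⟩ := chain _ u (hit_D hu) rfl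
  obtain ⟨-, Q, hQ, hQl, hQs, -⟩ := chain _ v (hit_D hv) rfl
  obtain ⟨-, P', hP', hPl', hPs', -⟩ := chain _ u' (hit_D hu') rfl
  obtain ⟨-, Q', hQ', hQl', hQs', -⟩ := chain _ v' (hit_D hv') rfl
  have h1 := D_le hu
  have h2 := D_le hv
  have h3 := D_le hu'
  have h4 := D_le hv'
  have key : ∀ {a b : V} (hab : G.Adj a b) (R : G.Walk a (cen G X a)) (S : G.Walk b (cen G X b)),
      R.IsPath → S.IsPath → (∀ z ∈ R.support, cen G X z = cen G X a) →
      (∀ z ∈ S.support, cen G X z = cen G X b) → cen G X a ≠ cen G X b →
      (R.reverse.append (Walk.cons hab S)).IsPath := by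
    intro a b hab R S hR hS hRs hSs hn
    rw [Walk.isPath_def, Walk.support_append]
    simp only [Walk.support_cons, List.tail_cons, Walk.support_reverse]
    rw [List.nodup_append]
    refine ⟨List.nodup_reverse.2 hR.support_nodup, hS.support_nodup, ?_⟩
    intro z hz y hy hzy
    subst hzy
    rw [List.mem_reverse] at hz
    exact hn ((hRs z hz).symm.trans (hSs z hy))
  have hne' : cen G X u' ≠ cen G X v' := by rwa [← hcu, ← hcv]
  have e1 := key h P Q hP hQ (fun z hz => (hPs z hz).1) (fun z hz => (hQs z hz).1) hne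
  have e2 := key h' P' Q' hP' hQ' (fun z hz => (hPs' z hz).1) (fun z hz => (hQs' z hz).1) hne'
  have e3 := path_unique hg _ ((P'.reverse.append (Walk.cons h' Q')).copy hcu.symm hcv.symm) e1
    (by rwa [Walk.isPath_copy]) (by
      simp only [Walk.length_copy, Walk.length_append, Walk.length_reverse, Walk.length_cons]
      omega)
  have e4 : s(u, v) ∈ (P'.reverse.append (Walk.cons h' Q')).edges := by
    have : s(u, v) ∈ (P.reverse.append (Walk.cons h Q)).edges := by simp
    rw [e3] at this
    simpa using this
  simp only [Walk.edges_append, Walk.edges_reverse, Walk.edges_cons, List.mem_append,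
    List.mem_reverse, List.mem_cons] at e4
  rcases e4 with e4 | e4 | e4
  · exfalso
    have := (hPs' v (P'.snd_mem_support_of_mem_edges e4)).1
    rw [← hcu] at this
    exact hne this.symm
  · rw [Sym2.eq_iff] at e4
    rcases e4 with e4 | e4
    · exact e4
    · exact absurd (hcu.trans (by rw [e4.2])) hne
  · exfalso
    have := (hQs' u (Q'.fst_mem_support_of_mem_edges e4)).1
    rw [← hcv] at this
    exact hne this

end cells2

section minor
variable {V : Type} (G : SimpleGraph V) (X : Finset V) (k : ℕ)

/-- the graph of the cells -/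
def cellGraph : SimpleGraph {x // x ∈ X} where
  Adj x y := x ≠ y ∧ ∃ u v, Hit G X k u ∧ Hit G X k v ∧ cen G X u = x.1 ∧ cen G X v = y.1 ∧ G.Adj u v
  symm := ⟨by
    rintro x y ⟨h, u, v, h1, h2, h3, h4, h5⟩
    exact ⟨h.symm, v, u, h2, h1, h4, h3, h5.symm⟩⟩
  loopless := ⟨fun x h => h.1 rfl⟩

theorem cellGraph_minor : IsMinor (cellGraph G X k) G := by
  refine ⟨fun x => {v | Hit G X k v ∧ cen G X v = x.1}, ?_, ?_, ?_⟩
  · intro x
    rw [connected_iff_exists_forall_reachable]
    have hx0 : D G X x.1 = 0 := D_of_mem (by simpa using x.2)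
    have hx : Hit G X k x.1 := (hit_zero (by simpa using x.2)).mono (Nat.zero_le _)
    refine ⟨⟨x.1, hx, cen_zero hx0⟩, ?_⟩
    rintro ⟨v, hv, hcv⟩
    obtain ⟨-, P, -, -, hs, -⟩ := chain _ v (hit_D hv) rfl
    have hP : ∀ z ∈ (P.copy rfl hcv).support, z ∈ {v | Hit G X k v ∧ cen G X v = x.1} := by
      intro z hz
      rw [Walk.support_copy] at hz
      have := hs z hz
      exact ⟨this.2.2.1.mono (this.2.1.trans (D_le hv)), this.1.trans hcv⟩
    exact ⟨((P.copy rfl hcv).induce _ hP).reverse⟩
  · intro x y hxy
    rw [Set.disjoint_left]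
    rintro v ⟨-, h1⟩ ⟨-, h2⟩
    exact hxy (Subtype.ext (h1.symm.trans h2))
  · rintro x y ⟨-, u, v, h1, h2, h3, h4, h5⟩
    exact ⟨u, ⟨h1, h3⟩, v, ⟨h2, h4⟩, h5⟩

open Classical in
theorem two_edges {W : Type} [Fintype W] (M : SimpleGraph W) :
    2 * M.edgeSet.ncard = (Finset.univ.filter fun p : W × W => M.Adj p.1 p.2).card := by
  have h := M.sum_degrees_eq_twice_card_edges
  have h1 : M.edgeSet.ncard = M.edgeFinset.card := by
    rw [← SimpleGraph.coe_edgeFinset, Set.ncard_coe_finset]
  rw [h1, ← h, Finset.card_filter, ← Finset.univ_product_univ, Finset.sum_product]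
  apply Finset.sum_congr rfl
  intro x _
  rw [← Finset.card_filter, ← SimpleGraph.card_neighborFinset_eq_degree]
  congr 1
  ext y; simp

variable [Fintype V]

open Classical in
theorem count {k : ℕ} (hg : ∀ (a : V) (w : G.Walk a a), w.IsCycle → 4 * k + 3 ≤ w.length) :
    (Finset.univ.filter fun p : V × V => Hit G X k p.1 ∧ Hit G X k p.2 ∧ G.Adj p.1 p.2).card
      + 2 * X.card ≤ 2 * (Finset.univ.filter fun v => Hit G X k v).card
        + 2 * (cellGraph G X k).edgeSet.ncard := by
  rw [two_edges]
  set A := Finset.univ.filter fun v => Hit G X k v with hA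
  have hXA : X ⊆ A := by
    intro x hx
    rw [hA, Finset.mem_filter]
    exact ⟨Finset.mem_univ _, (hit_zero (by simpa using hx)).mono (Nat.zero_le _)⟩
  set S := Finset.univ.filter fun p : V × V => Hit G X k p.1 ∧ Hit G X k p.2 ∧ G.Adj p.1 p.2 with hS
  set S1 := S.filter fun p => cen G X p.1 = cen G X p.2 with hS1
  set S2 := S.filter fun p => ¬ cen G X p.1 = cen G X p.2 with hS2
  have hsum : S1.card + S2.card = S.card := Finset.card_filter_add_card_filter_not _
  have h1 : S1.card ≤ (A \ X).card + (A \ X).card := by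
    have hsub : S1 ⊆ (A \ X).image (fun v => (v, par G X v)) ∪ (A \ X).image (fun v => (par G X v, v)) := by
      rintro ⟨u, v⟩ hp
      rw [hS1, Finset.mem_filter, hS, Finset.mem_filter] at hp
      obtain ⟨⟨-, hu, hv, hadj⟩, hc⟩ := hp
      simp only at hu hv hadj hc
      have key : ∀ z, Hit G X k z → z ≠ par G X z → z ∈ A \ X := by
        intro z hz hne
        rw [Finset.mem_sdiff, hA, Finset.mem_filter]
        refine ⟨⟨Finset.mem_univ _, hz⟩, fun hzX => hne ?_⟩
        have hD : D G X z = 0 := D_of_mem (by simpa using hzX)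
        unfold par
        rw [dif_neg]
        rintro ⟨w, -, h, -⟩
        omega
      rcases in_cell hg hu hv hadj hc with h | h
      · apply Finset.mem_union_left
        rw [Finset.mem_image]
        refine ⟨u, key u hu ?_, by rw [← h]⟩
        rw [← h]; exact hadj.ne
      · apply Finset.mem_union_right
        rw [Finset.mem_image]
        refine ⟨v, key v hv ?_, by rw [← h]⟩
        rw [← h]; exact hadj.ne'
    calc S1.card ≤ _ := Finset.card_le_card hsub
      _ ≤ _ := Finset.card_union_le _ _
      _ ≤ _ := Nat.add_le_add Finset.card_image_le Finset.card_image_le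
  have h2 : (A \ X).card + X.card = A.card := Finset.card_sdiff_add_card_eq_card hXA
  have hcen : ∀ v, Hit G X k v → cen G X v ∈ X := by
    intro v hv
    simpa using (chain _ v (hit_D hv) rfl).1
  have h3 : S2.card ≤ (Finset.univ.filter fun p : {x // x ∈ X} × {x // x ∈ X} =>
      (cellGraph G X k).Adj p.1 p.2).card := by
    apply Finset.card_le_card_of_forall_subsingleton
      (fun (p : V × V) (q : {x // x ∈ X} × {x // x ∈ X}) =>
        cen G X p.1 = q.1.1 ∧ cen G X p.2 = q.2.1)
    · rintro ⟨u, v⟩ hp
      rw [hS2, Finset.mem_filter, hS, Finset.mem_filter] at hp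
      obtain ⟨⟨-, hu, hv, hadj⟩, hc⟩ := hp
      simp only at hu hv hadj hc
      refine ⟨(⟨cen G X u, hcen _ hu⟩, ⟨cen G X v, hcen _ hv⟩), ?_, rfl, rfl⟩
      rw [Finset.mem_filter]
      refine ⟨Finset.mem_univ _, ?_, u, v, hu, hv, rfl, rfl, hadj⟩
      intro h
      exact hc (congrArg Subtype.val h)
    · rintro ⟨x, y⟩ hq ⟨u, v⟩ hp ⟨u', v'⟩ hp'
      obtain ⟨hp, hp1, hp2⟩ := hp
      obtain ⟨hp', hp1', hp2'⟩ := hp'
      rw [hS2, Finset.mem_filter, hS, Finset.mem_filter] at hp hp'
      obtain ⟨⟨-, hu, hv, hadj⟩, hc⟩ := hp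
      obtain ⟨⟨-, hu', hv', hadj'⟩, hc'⟩ := hp'
      simp only at hu hv hadj hc hu' hv' hadj' hc' hp1 hp2 hp1' hp2'
      obtain ⟨e1, e2⟩ := cross hg hu hv hu' hv' hadj hadj' (hp1.trans hp1'.symm) (hp2.trans hp2'.symm) hc
      rw [e1, e2]
  omega

end minor

section ball
variable {V : Type} {G : SimpleGraph V} [Fintype V]

open Classical in
/-- the degree -/
noncomputable def dg (G : SimpleGraph V) (v : V) : ℕ := (Finset.univ.filter fun w => G.Adj v w).card

theorem near_unique {k : ℕ} (hg : ∀ (a : V) (w : G.Walk a a), w.IsCycle → 4 * k + 3 ≤ w.length)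
    {v u w w' : V} {i : ℕ} (hik : i ≤ k) (hD : D G {v} u = i)
    (hw : G.Adj u w) (hw' : G.Adj u w') (h : Hit G {v} i w) (h' : Hit G {v} i w') : w = w' := by
  have hcen : ∀ z, Hit G {v} i z → cen G {v} z = v := fun z hz => by
    have := (chain _ z (hit_D hz) rfl).1
    simpa using this
  have key : ∀ z, G.Adj u z → Hit G {v} i z → ∃ P : G.Walk z v, P.length ≤ i ∧
      ∀ (hz : G.Adj u z), (Walk.cons hz P).IsPath := by
    intro z hz hh
    obtain ⟨-, P, hP, hl, hs, -⟩ := chain _ z (hit_D hh) rfl
    refine ⟨P.copy rfl (hcen z hh), ?_, ?_⟩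
    · rw [Walk.length_copy, hl]; exact D_le hh
    · intro hz
      rw [Walk.cons_isPath_iff]
      refine ⟨by rwa [Walk.isPath_copy], ?_⟩
      rw [Walk.support_copy]
      intro hu
      rcases (hs u hu).2.2.2 with h1 | h1
      · exact hz.ne h1
      · have := D_le hh
        omega
  obtain ⟨P, hl, hP⟩ := key w hw h
  obtain ⟨P', hl', hP'⟩ := key w' hw' h'
  have := path_unique hg _ _ (hP hw) (hP' hw') (by
    simp only [Walk.length_cons]; omega)
  have h2 := congrArg Walk.support this
  simp only [Walk.support_cons, List.cons.injEq, true_and] at h2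
  rw [Walk.support_eq_cons P, Walk.support_eq_cons P'] at h2
  exact (List.cons.inj h2).1

open Classical in
theorem level_bound {k : ℕ} (hg : ∀ (a : V) (w : G.Walk a a), w.IsCycle → 4 * k + 3 ≤ w.length)
    (hd : ∀ v, 3 ≤ dg G v) (v : V) (j : ℕ) (hj : j ≤ k) :
    3 * 2 ^ j ≤ (Finset.univ.filter fun u => Hit G {v} j u).card + 2 ∧
      (∀ i, j = i + 1 → 3 * 2 ^ i ≤
        (Finset.univ.filter fun u => Hit G {v} j u ∧ D G {v} u = j).card) := by
  have hD0 : ∀ u, Hit G {v} 0 u → u = v := by
    intro u hu
    obtain ⟨x, hx, w, hw⟩ := hu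
    have : w.length = 0 := by omega
    rw [Set.mem_singleton_iff] at hx
    rw [Walk.eq_of_length_eq_zero this, hx]
  induction j with
  | zero =>
    refine ⟨?_, fun i hi => absurd hi (by omega)⟩
    have : 0 < (Finset.univ.filter fun u => Hit G {v} 0 u).card := by
      apply Finset.card_pos.2
      exact ⟨v, by rw [Finset.mem_filter]; exact ⟨Finset.mem_univ _, hit_zero rfl⟩⟩
    omega
  | succ j ih =>
    obtain ⟨ih1, ih2⟩ := ih (by omega)
    have hL : 3 * 2 ^ j ≤
        (Finset.univ.filter fun u => Hit G {v} (j + 1) u ∧ D G {v} u = j + 1).card := by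
      rcases Nat.eq_zero_or_pos j with rfl | hpos
      · have := hd v
        unfold dg at this
        refine le_trans (by simpa using this) (Finset.card_le_card ?_)
        intro u hu
        rw [Finset.mem_filter] at hu ⊢
        have h1 : Hit G {v} (0 + 1) u := hit_cons hu.2.symm (hit_zero rfl)
        refine ⟨Finset.mem_univ _, h1, ?_⟩
        have h2 := D_le h1
        have h3 : D G {v} u ≠ 0 := by
          intro h0
          have := hit_D h1
          rw [h0] at this
          exact hu.2.ne (hD0 u this).symm
        omega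
      · obtain ⟨i, rfl⟩ : ∃ i, j = i + 1 := ⟨j - 1, by omega⟩
        have ih3 := ih2 i rfl
        have h4 := Finset.card_mul_le_card_mul (s := Finset.univ.filter fun u => Hit G {v} (i + 1) u ∧ D G {v} u = i + 1)
          (t := Finset.univ.filter fun u => Hit G {v} (i + 1 + 1) u ∧ D G {v} u = i + 1 + 1)
          (m := 2) (n := 1) (fun a b => G.Adj a b) ?_ ?_
        · rw [pow_succ]; omega
        · intro u hu
          rw [Finset.mem_filter] at hu
          obtain ⟨-, hu1, hu2⟩ := hu
          have hsub : (Finset.univ.filter fun w => G.Adj u w) ⊆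
              (Finset.univ.filter fun w => G.Adj u w ∧ Hit G {v} (i + 1) w) ∪
              Finset.bipartiteAbove (fun a b => G.Adj a b)
                (Finset.univ.filter fun u => Hit G {v} (i + 1 + 1) u ∧ D G {v} u = i + 1 + 1) u := by
            intro w hw
            rw [Finset.mem_filter] at hw
            by_cases hh : Hit G {v} (i + 1) w
            · exact Finset.mem_union_left _ (by rw [Finset.mem_filter]; exact ⟨Finset.mem_univ _, hw.2, hh⟩)
            · apply Finset.mem_union_right
              rw [Finset.mem_bipartiteAbove, Finset.mem_filter]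
              have h1 : Hit G {v} (i + 1 + 1) w := hit_cons hw.2.symm hu1
              refine ⟨⟨Finset.mem_univ _, h1, ?_⟩, hw.2⟩
              have h2 := D_le h1
              have h3 : ¬ D G {v} w ≤ i + 1 := fun h => hh ((hit_D h1).mono h)
              omega
          have h1 : (Finset.univ.filter fun w => G.Adj u w ∧ Hit G {v} (i + 1) w).card ≤ 1 := by
            rw [Finset.card_le_one]
            intro a ha b hb
            rw [Finset.mem_filter] at ha hb
            exact near_unique hg (by omega) hu2 ha.2.1 hb.2.1 ha.2.2 hb.2.2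
          have h2 := Finset.card_le_card hsub
          have h3 := Finset.card_union_le (Finset.univ.filter fun w => G.Adj u w ∧ Hit G {v} (i + 1) w)
            (Finset.bipartiteAbove (fun a b => G.Adj a b)
                (Finset.univ.filter fun u => Hit G {v} (i + 1 + 1) u ∧ D G {v} u = i + 1 + 1) u)
          have h5 := hd u
          unfold dg at h5
          omega
        · intro w hw
          rw [Finset.mem_filter] at hw
          rw [Finset.card_le_one]
          intro a ha b hb
          rw [Finset.mem_bipartiteBelow, Finset.mem_filter] at ha hb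
          exact near_unique hg (i := i + 1 + 1) (by omega) hw.2.2 ha.2.symm hb.2.symm
            (ha.1.2.1.mono (by omega)) (hb.1.2.1.mono (by omega))
    refine ⟨?_, ?_⟩
    · have hsub : (Finset.univ.filter fun u => Hit G {v} j u) ∪
          (Finset.univ.filter fun u => Hit G {v} (j + 1) u ∧ D G {v} u = j + 1) ⊆
          (Finset.univ.filter fun u => Hit G {v} (j + 1) u) := by
        intro u hu
        rw [Finset.mem_union, Finset.mem_filter, Finset.mem_filter] at hu
        rw [Finset.mem_filter]
        rcases hu with hu | hu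
        · exact ⟨Finset.mem_univ _, hu.2.mono (by omega)⟩
        · exact ⟨Finset.mem_univ _, hu.2.1⟩
      have hdis : Disjoint (Finset.univ.filter fun u => Hit G {v} j u)
          (Finset.univ.filter fun u => Hit G {v} (j + 1) u ∧ D G {v} u = j + 1) := by
        rw [Finset.disjoint_left]
        intro u hu hu'
        rw [Finset.mem_filter] at hu hu'
        have := D_le hu.2
        have := hu'.2.2
        omega
      have h1 := Finset.card_le_card hsub
      rw [Finset.card_union_of_disjoint hdis] at h1
      rw [pow_succ]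
      omega
    · intro i hi
      have : i = j := by omega
      subst this
      exact hL

end ball

section expect
variable {V : Type} {G : SimpleGraph V} [Fintype V]

open Classical in
theorem count2 {k : ℕ} (hg : ∀ (a : V) (w : G.Walk a a), w.IsCycle → 4 * k + 3 ≤ w.length)
    (X : Finset V) :
    (∑ v : V, if Hit G X k v then (dg G v : ℝ) - 2 else - (dg G v : ℝ)) + 2 * X.card
      ≤ 2 * ((cellGraph G X k).edgeSet.ncard : ℝ) := by
  have h := count G X hg
  set S := Finset.univ.filter fun p : V × V => Hit G X k p.1 ∧ Hit G X k p.2 ∧ G.Adj p.1 p.2 with hS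
  set A := Finset.univ.filter fun v => Hit G X k v with hA
  set T1 := Finset.univ.filter fun p : V × V => Hit G X k p.1 ∧ G.Adj p.1 p.2 with hT1
  set T2 := Finset.univ.filter fun p : V × V => ¬ Hit G X k p.2 ∧ G.Adj p.1 p.2 with hT2
  have h1 : T1.card ≤ S.card + T2.card := by
    refine le_trans (Finset.card_le_card ?_) (Finset.card_union_le S T2)
    intro p hp
    rw [hT1, Finset.mem_filter] at hp
    rw [Finset.mem_union, hS, hT2, Finset.mem_filter, Finset.mem_filter]
    by_cases hh : Hit G X k p.2
    · exact Or.inl ⟨Finset.mem_univ _, hp.2.1, hh, hp.2.2⟩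
    · exact Or.inr ⟨Finset.mem_univ _, hh, hp.2.2⟩
  have h2 : T1.card = ∑ v : V, if Hit G X k v then dg G v else 0 := by
    rw [hT1, Finset.card_filter, ← Finset.univ_product_univ, Finset.sum_product]
    apply Finset.sum_congr rfl
    intro v _
    by_cases hv : Hit G X k v
    · rw [if_pos hv]
      unfold dg
      rw [Finset.card_filter]
      apply Finset.sum_congr rfl
      intro y _
      simp [hv]
    · simp [hv]
  have h3 : T2.card = ∑ v : V, if Hit G X k v then 0 else dg G v := by
    rw [hT2, Finset.card_filter, ← Finset.univ_product_univ, Finset.sum_product_right]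
    apply Finset.sum_congr rfl
    intro v _
    by_cases hv : Hit G X k v
    · simp [hv]
    · rw [if_neg hv]
      unfold dg
      rw [Finset.card_filter]
      apply Finset.sum_congr rfl
      intro y _
      simp [hv, G.adj_comm y v]
  have h4 : A.card = ∑ v : V, if Hit G X k v then 1 else 0 := by
    rw [hA, Finset.card_filter]
  have h5 : (∑ v : V, if Hit G X k v then (dg G v : ℝ) - 2 else - (dg G v : ℝ)) =
      (T1.card : ℝ) - 2 * A.card - T2.card := by
    rw [h2, h3, h4]
    push_cast
    rw [Finset.mul_sum, ← Finset.sum_sub_distrib, ← Finset.sum_sub_distrib]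
    apply Finset.sum_congr rfl
    intro v _
    by_cases hv : Hit G X k v <;> simp [hv]
  rw [h5]
  have h6 : (S.card : ℝ) + 2 * X.card ≤ 2 * A.card + 2 * ((cellGraph G X k).edgeSet.ncard : ℝ) := by
    exact_mod_cast h
  have h7 : (T1.card : ℝ) ≤ S.card + T2.card := by exact_mod_cast h1
  linarith

/-- the weight of a set -/
noncomputable def wt (V : Type) [Fintype V] (p : ℝ) (Y : Finset V) : ℝ :=
  p ^ Y.card * (1 - p) ^ (Fintype.card V - Y.card)

open Classical in
theorem wt_avoid (p : ℝ) (B : Finset V) :
    ∑ Y ∈ (Finset.univ : Finset V).powerset.filter (fun Y => Disjoint Y B), wt V p Y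
      = (1 - p) ^ B.card := by
  have h1 : (Finset.univ : Finset V).powerset.filter (fun Y => Disjoint Y B) = Bᶜ.powerset := by
    ext Y
    simp only [Finset.powerset_univ, Finset.mem_filter, Finset.mem_univ, true_and,
      Finset.mem_powerset]
    rw [Finset.subset_compl_iff_disjoint_right]
  rw [h1]
  have h2 := Finset.sum_pow_mul_eq_add_pow p (1 - p) Bᶜ
  rw [add_sub_cancel, one_pow] at h2
  have h6 : (1 - p) ^ B.card = (1 - p) ^ B.card *
      ∑ t ∈ Bᶜ.powerset, p ^ t.card * (1 - p) ^ (Bᶜ.card - t.card) := by rw [h2, mul_one]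
  rw [h6, Finset.mul_sum]
  apply Finset.sum_congr rfl
  intro Y hY
  rw [Finset.mem_powerset] at hY
  have h3 := Finset.card_le_card hY
  have h4 := Finset.card_compl B
  have h5 := Finset.card_le_univ B
  unfold wt
  have : Fintype.card V - Y.card = B.card + (Bᶜ.card - Y.card) := by omega
  rw [this, pow_add]
  ring

open Classical in
theorem wt_two (p : ℝ) (B : Finset V) (a b : ℝ) :
    ∑ Y : Finset V, wt V p Y * (if Disjoint Y B then b else a)
      = a - (a - b) * (1 - p) ^ B.card := by
  have h1 := wt_avoid (V := V) p B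
  have h0 := wt_avoid (V := V) p ∅
  simp only [Finset.disjoint_empty_right, Finset.filter_true, Finset.powerset_univ,
    Finset.card_empty, pow_zero] at h0
  rw [Finset.powerset_univ, Finset.sum_filter] at h1
  have : ∀ Y : Finset V, wt V p Y * (if Disjoint Y B then b else a)
      = a * wt V p Y - (a - b) * (if Disjoint Y B then wt V p Y else 0) := by
    intro Y
    split_ifs <;> ring
  rw [Finset.sum_congr rfl (fun Y _ => this Y), Finset.sum_sub_distrib, ← Finset.mul_sum,
    ← Finset.mul_sum, h1, h0]
  ring

theorem hit_iff {k : ℕ} {X : Finset V} {v : V} :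
    Hit G X k v ↔ ∃ x ∈ X, Hit G {v} k x := by
  constructor
  · rintro ⟨x, hx, w, hw⟩
    exact ⟨x, by simpa using hx, v, rfl, w.reverse, by simpa using hw⟩
  · rintro ⟨x, hx, y, hy, w, hw⟩
    rw [Set.mem_singleton_iff] at hy
    subst hy
    exact ⟨x, by simpa using hx, w.reverse, by simpa using hw⟩

/-- the main inequality -/
theorem main_ineq {k : ℕ} (hg : ∀ (a : V) (w : G.Walk a a), w.IsCycle → 4 * k + 3 ≤ w.length)
    (hd : ∀ v, 3 ≤ dg G v) [Nonempty V] {d : ℝ}
    (hM : ∀ X : Finset V, 2 * ((cellGraph G X k).edgeSet.ncard : ℝ) ≤ d * X.card)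
    {p q : ℝ} (hp0 : 0 ≤ p) (hp1 : p ≤ 1) (hq : (1 - p) ^ (3 * 2 ^ k - 2) ≤ q) (hq2 : q ≤ 1 / 2) :
    1 - 4 * q ≤ (d - 2) * p := by
  classical
  have hn : (0 : ℝ) < Fintype.card V := by exact_mod_cast Fintype.card_pos
  -- sum over all sets
  have h1 : ∑ Y : Finset V, wt V p Y * (∑ v : V, if Hit G Y k v then (dg G v : ℝ) - 2 else - (dg G v : ℝ))
      ≤ ∑ Y : Finset V, wt V p Y * ((d - 2) * Y.card) := by
    apply Finset.sum_le_sum
    intro Y _
    apply mul_le_mul_of_nonneg_left _ (by
      unfold wt
      have : 0 ≤ 1 - p := by linarith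
      positivity)
    have := count2 hg Y
    have := hM Y
    linarith
  have h2 : ∑ Y : Finset V, wt V p Y * ((d - 2) * Y.card) = (d - 2) * (p * Fintype.card V) := by
    have : ∀ Y : Finset V, wt V p Y * ((d - 2) * Y.card)
        = ∑ v : V, (d - 2) * (wt V p Y * (if Disjoint Y {v} then 0 else 1)) := by
      intro Y
      rw [← Finset.mul_sum, ← Finset.mul_sum]
      have : (∑ v : V, if Disjoint Y {v} then (0 : ℝ) else 1) = Y.card := by
        have h0 : ∀ v : V, (if Disjoint Y {v} then (0 : ℝ) else 1) = if v ∈ Y then 1 else 0 := by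
          intro v
          by_cases hv : v ∈ Y <;> simp [hv]
        rw [Finset.sum_congr rfl (fun v _ => h0 v), Finset.sum_ite_mem]
        simp
      rw [this]; ring
    rw [Finset.sum_congr rfl (fun Y _ => this Y), Finset.sum_comm]
    have : ∀ v : V, ∑ Y : Finset V, (d - 2) * (wt V p Y * (if Disjoint Y {v} then 0 else 1)) = (d - 2) * p := by
      intro v
      rw [← Finset.mul_sum, wt_two]
      simp
    rw [Finset.sum_congr rfl (fun v _ => this v)]
    simp; ring
  have h3 : ∑ Y : Finset V, wt V p Y * (∑ v : V, if Hit G Y k v then (dg G v : ℝ) - 2 else - (dg G v : ℝ))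
      = ∑ v : V, (((dg G v : ℝ) - 2) - (((dg G v : ℝ) - 2) - (- (dg G v : ℝ))) *
        (1 - p) ^ (Finset.univ.filter fun u => Hit G {v} k u).card) := by
    rw [Finset.sum_congr rfl (fun Y _ => Finset.mul_sum _ _ _), Finset.sum_comm]
    apply Finset.sum_congr rfl
    intro v _
    rw [← wt_two]
    apply Finset.sum_congr rfl
    intro Y _
    congr 1
    have : Hit G Y k v ↔ ¬ Disjoint Y (Finset.univ.filter fun u => Hit G {v} k u) := by
      rw [hit_iff, Finset.not_disjoint_iff]
      simp
    by_cases hh : Hit G Y k v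
    · rw [if_pos hh, if_neg (this.1 hh)]
    · rw [if_neg hh, if_pos (not_not.1 (fun h => hh (this.2 h)))]
  have h4 : ∀ v : V, 1 - 4 * q ≤ (((dg G v : ℝ) - 2) - (((dg G v : ℝ) - 2) - (- (dg G v : ℝ))) *
        (1 - p) ^ (Finset.univ.filter fun u => Hit G {v} k u).card) := by
    intro v
    have hb := (level_bound hg hd v k le_rfl).1
    have hpow : (1 - p) ^ (Finset.univ.filter fun u => Hit G {v} k u).card ≤ q := by
      refine le_trans (pow_le_pow_of_le_one (by linarith) (by linarith) ?_) hq
      omega
    have hdv : (3 : ℝ) ≤ dg G v := by exact_mod_cast hd v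
    nlinarith
  have h5 : (Fintype.card V : ℝ) * (1 - 4 * q) ≤ (d - 2) * (p * Fintype.card V) := by
    rw [← h2]
    refine le_trans ?_ h1
    rw [h3]
    calc (Fintype.card V : ℝ) * (1 - 4 * q) = ∑ _v : V, (1 - 4 * q) := by
          rw [Finset.sum_const, Finset.card_univ, nsmul_eq_mul]
      _ ≤ _ := Finset.sum_le_sum fun v _ => h4 v
  nlinarith

end expect

section suppress
variable {V : Type} {H : SimpleGraph V} {z a b : V}

/-- suppress the vertex `z` with the two neighbours `a`, `b` -/
def supp (H : SimpleGraph V) (z a b : V) (hab : a ≠ b) : SimpleGraph {v // v ≠ z} where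
  Adj x y := H.Adj x.1 y.1 ∨ (x.1 = a ∧ y.1 = b) ∨ (x.1 = b ∧ y.1 = a)
  symm := ⟨by
    rintro x y (h | ⟨h1, h2⟩ | ⟨h1, h2⟩)
    · exact Or.inl h.symm
    · exact Or.inr (Or.inr ⟨h2, h1⟩)
    · exact Or.inr (Or.inl ⟨h2, h1⟩)⟩
  loopless := ⟨by
    rintro x (h | ⟨h1, h2⟩ | ⟨h1, h2⟩)
    · exact H.irrefl h
    · exact hab (h1.symm.trans h2)
    · exact hab (h2.symm.trans h1)⟩

open Classical in
/-- the new lengths -/
noncomputable def len1 (l : Sym2 V → ℕ) (z a b : V) (e : Sym2 {v // v ≠ z}) : ℕ :=
  if e.map Subtype.val = s(a, b) then l s(a, z) + l s(z, b) else l (e.map Subtype.val)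

theorem supp_minor (hab : a ≠ b) (ha : H.Adj z a) (hb : H.Adj z b) :
    IsMinor (supp H z a b hab) H := by
  refine ⟨fun x => {v | v = x.1 ∨ (x.1 = a ∧ v = z)}, ?_, ?_, ?_⟩
  · intro x
    rw [connected_iff_exists_forall_reachable]
    refine ⟨⟨x.1, Or.inl rfl⟩, ?_⟩
    rintro ⟨v, hv | ⟨h1, h2⟩⟩
    · subst hv; exact Reachable.refl _
    · apply Adj.reachable
      simp only [comap_adj, Function.Embedding.subtype_apply]
      rw [h1, h2]; exact ha.symm
  · intro x y hxy
    rw [Set.disjoint_left]
    rintro v (h1 | ⟨h1, h2⟩) (h3 | ⟨h3, h4⟩)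
    · exact hxy (Subtype.ext (h1.symm.trans h3))
    · exact x.2 (h1.symm.trans h4)
    · exact y.2 (h3.symm.trans h2)
    · exact hxy (Subtype.ext (h1.trans h3.symm))
  · rintro x y (h | ⟨h1, h2⟩ | ⟨h1, h2⟩)
    · exact ⟨x.1, Or.inl rfl, y.1, Or.inl rfl, h⟩
    · exact ⟨z, Or.inr ⟨h1, rfl⟩, y.1, Or.inl rfl, by rw [h2]; exact hb⟩
    · exact ⟨x.1, Or.inl rfl, z, Or.inr ⟨h2, rfl⟩, by rw [h1]; exact hb.symm⟩

theorem supp_dg [Fintype V] [Fintype {v // v ≠ z}] (hab : a ≠ b) (hz : ∀ v, H.Adj z v ↔ v = a ∨ v = b)
    (hnab : ¬ H.Adj a b) (x : {v // v ≠ z}) : dg (supp H z a b hab) x = dg H x.1 := by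
  classical
  unfold dg
  have haz : a ≠ z := fun h => H.irrefl (by
    have := (hz a).2 (Or.inl rfl); rwa [h] at this)
  have hbz : b ≠ z := fun h => H.irrefl (by
    have := (hz b).2 (Or.inr rfl); rwa [h] at this)
  rw [← Finset.card_image_of_injective _ (Subtype.val_injective (p := fun v => v ≠ z))]
  by_cases hxa : x.1 = a
  · have : (Finset.univ.filter fun w => (supp H z a b hab).Adj x w).image Subtype.val
        = insert b ((Finset.univ.filter fun w => H.Adj x.1 w).erase z) := by
      ext v
      simp only [Finset.mem_image, Finset.mem_filter, Finset.mem_univ, true_and, Finset.mem_insert,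
        Finset.mem_erase]
      constructor
      · rintro ⟨y, h | ⟨h1, h2⟩ | ⟨h1, h2⟩, rfl⟩
        · exact Or.inr ⟨y.2, h⟩
        · exact Or.inl h2
        · exact absurd (hxa.symm.trans h1) hab
      · rintro (h | ⟨h1, h2⟩)
        · exact ⟨⟨v, by rw [h]; exact hbz⟩, Or.inr (Or.inl ⟨hxa, h⟩), rfl⟩
        · exact ⟨⟨v, h1⟩, Or.inl h2, rfl⟩
    rw [this, Finset.card_insert_of_notMem, Finset.card_erase_of_mem]
    · have : 0 < (Finset.univ.filter fun w => H.Adj x.1 w).card := by
        apply Finset.card_pos.2
        exact ⟨z, by simp only [Finset.mem_filter, Finset.mem_univ, true_and]; rw [hxa]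
                     exact ((hz a).2 (Or.inl rfl)).symm⟩
      omega
    · simp only [Finset.mem_filter, Finset.mem_univ, true_and]
      rw [hxa]; exact ((hz a).2 (Or.inl rfl)).symm
    · simp only [Finset.mem_erase, Finset.mem_filter, Finset.mem_univ, true_and]
      rintro ⟨-, h⟩
      rw [hxa] at h; exact hnab h
  · by_cases hxb : x.1 = b
    · have : (Finset.univ.filter fun w => (supp H z a b hab).Adj x w).image Subtype.val
          = insert a ((Finset.univ.filter fun w => H.Adj x.1 w).erase z) := by
        ext v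
        simp only [Finset.mem_image, Finset.mem_filter, Finset.mem_univ, true_and, Finset.mem_insert,
          Finset.mem_erase]
        constructor
        · rintro ⟨y, h | ⟨h1, h2⟩ | ⟨h1, h2⟩, rfl⟩
          · exact Or.inr ⟨y.2, h⟩
          · exact absurd h1 hxa
          · exact Or.inl h2
        · rintro (h | ⟨h1, h2⟩)
          · exact ⟨⟨v, by rw [h]; exact haz⟩, Or.inr (Or.inr ⟨hxb, h⟩), rfl⟩
          · exact ⟨⟨v, h1⟩, Or.inl h2, rfl⟩
      rw [this, Finset.card_insert_of_notMem, Finset.card_erase_of_mem]
      · have : 0 < (Finset.univ.filter fun w => H.Adj x.1 w).card := by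
          apply Finset.card_pos.2
          exact ⟨z, by simp only [Finset.mem_filter, Finset.mem_univ, true_and]; rw [hxb]
                       exact ((hz b).2 (Or.inr rfl)).symm⟩
        omega
      · simp only [Finset.mem_filter, Finset.mem_univ, true_and]
        rw [hxb]; exact ((hz b).2 (Or.inr rfl)).symm
      · simp only [Finset.mem_erase, Finset.mem_filter, Finset.mem_univ, true_and]
        rintro ⟨-, h⟩
        rw [hxb] at h; exact hnab h.symm
    · congr 1
      ext v
      simp only [Finset.mem_image, Finset.mem_filter, Finset.mem_univ, true_and]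
      constructor
      · rintro ⟨y, h | ⟨h1, h2⟩ | ⟨h1, h2⟩, rfl⟩
        · exact h
        · exact absurd h1 hxa
        · exact absurd h1 hxb
      · intro h
        refine ⟨⟨v, fun hv => ?_⟩, Or.inl h, rfl⟩
        rw [hv] at h
        rcases (hz x.1).1 h.symm with h1 | h1
        · exact hxa h1
        · exact hxb h1

theorem exp_path (hab : a ≠ b) (ha : H.Adj z a) (hb : H.Adj z b) (hnab : ¬ H.Adj a b)
    (l : Sym2 V → ℕ) {x y : {v // v ≠ z}} (w : (supp H z a b hab).Walk x y) (hw : w.IsPath) :
    ∃ w' : H.Walk x.1 y.1, w'.IsPath ∧ (w'.edges.map l).sum = (w.edges.map (len1 l z a b)).sum ∧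
      (∀ v ∈ w'.support, (v = z ∧ s(a, b) ∈ w.edges.map (Sym2.map Subtype.val)) ∨
        ∃ u ∈ w.support, u.1 = v) ∧
      (∀ e ∈ w'.edges, z ∈ e ∨ e ∈ w.edges.map (Sym2.map Subtype.val)) := by
  induction w with
  | nil => exact ⟨Walk.nil, by simp, by simp, by simp, by simp⟩
  | @cons x y y' h w ih =>
    rw [Walk.cons_isPath_iff] at hw
    obtain ⟨w', h1, h2, h3, h4⟩ := ih hw.1
    have hx : ∀ v ∈ w'.support, v ≠ x.1 := by
      intro v hv hvx
      rcases h3 v hv with ⟨h5, -⟩ | ⟨u, hu, huv⟩
      · exact x.2 (hvx.symm.trans h5)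
      · have : u = x := Subtype.ext (huv.trans hvx)
        rw [this] at hu; exact hw.2 hu
    by_cases hadj : H.Adj x.1 y.1
    · refine ⟨Walk.cons hadj w', ?_, ?_, ?_, ?_⟩
      · rw [Walk.cons_isPath_iff]
        exact ⟨h1, fun h => hx _ h rfl⟩
      · simp only [Walk.edges_cons, List.map_cons, List.sum_cons]
        rw [h2]
        congr 1
        unfold len1
        rw [if_neg]
        · rfl
        · intro h5
          rw [Sym2.map_mk, Sym2.eq_iff] at h5
          rcases h5 with ⟨h5, h6⟩ | ⟨h5, h6⟩
          · rw [h5, h6] at hadj; exact hnab hadj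
          · rw [h5, h6] at hadj; exact hnab hadj.symm
      · intro v hv
        rw [Walk.support_cons, List.mem_cons] at hv
        rcases hv with hv | hv
        · exact Or.inr ⟨x, by simp, hv.symm⟩
        · rcases h3 v hv with ⟨h5, h6⟩ | ⟨u, hu, huv⟩
          · exact Or.inl ⟨h5, by simp only [Walk.edges_cons, List.map_cons, List.mem_cons]; exact Or.inr h6⟩
          · exact Or.inr ⟨u, by simp [hu], huv⟩
      · intro e he
        rw [Walk.edges_cons, List.mem_cons] at he
        rcases he with he | he
        · right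
          rw [he]; simp
        · rcases h4 e he with h5 | h5
          · exact Or.inl h5
          · right
            simp only [Walk.edges_cons, List.map_cons, List.mem_cons]
            exact Or.inr h5
    · have hcase : (x.1 = a ∧ y.1 = b) ∨ (x.1 = b ∧ y.1 = a) := by
        rcases h with h | h
        · exact absurd h hadj
        · exact h
      have hxz : H.Adj x.1 z := by
        rcases hcase with ⟨h5, -⟩ | ⟨h5, -⟩
        · rw [h5]; exact ha.symm
        · rw [h5]; exact hb.symm
      have hzy : H.Adj z y.1 := by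
        rcases hcase with ⟨-, h5⟩ | ⟨-, h5⟩
        · rw [h5]; exact hb
        · rw [h5]; exact ha
      have hsab : s(x.1, y.1) = s(a, b) := by
        rcases hcase with ⟨h5, h6⟩ | ⟨h5, h6⟩
        · rw [h5, h6]
        · rw [h5, h6, Sym2.eq_swap]
      have hzw : z ∉ w'.support := by
        intro hz
        rcases h3 z hz with ⟨-, h6⟩ | ⟨u, hu, huv⟩
        · rw [List.mem_map] at h6
          obtain ⟨e, he, hee⟩ := h6
          have : e = s(x, y) := by
            apply Sym2.map.injective Subtype.val_injective
            rw [hee, Sym2.map_mk, hsab]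
          rw [this] at he
          exact hw.2 (w.fst_mem_support_of_mem_edges he)
        · exact u.2 huv
      refine ⟨Walk.cons hxz (Walk.cons hzy w'), ?_, ?_, ?_, ?_⟩
      · rw [Walk.cons_isPath_iff, Walk.cons_isPath_iff]
        refine ⟨⟨h1, hzw⟩, ?_⟩
        rw [Walk.support_cons, List.mem_cons]
        rintro (h5 | h5)
        · exact x.2 h5
        · exact hx _ h5 rfl
      · simp only [Walk.edges_cons, List.map_cons, List.sum_cons]
        rw [h2]
        unfold len1
        rw [Sym2.map_mk, if_pos hsab]
        rcases hcase with ⟨h5, h6⟩ | ⟨h5, h6⟩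
        · rw [h5, h6]; ring
        · rw [h5, h6, Sym2.eq_swap (a := b) (b := z), Sym2.eq_swap (a := z) (b := a)]; ring
      · intro v hv
        rw [Walk.support_cons, List.mem_cons, Walk.support_cons, List.mem_cons] at hv
        rcases hv with hv | hv | hv
        · exact Or.inr ⟨x, by simp, hv.symm⟩
        · left
          refine ⟨hv, ?_⟩
          simp only [Walk.edges_cons, List.map_cons, List.mem_cons, Sym2.map_mk]
          exact Or.inl hsab.symm
        · rcases h3 v hv with ⟨h5, h6⟩ | ⟨u, hu, huv⟩
          · exact Or.inl ⟨h5, by simp only [Walk.edges_cons, List.map_cons, List.mem_cons]; exact Or.inr h6⟩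
          · exact Or.inr ⟨u, by simp [hu], huv⟩
      · intro e he
        rw [Walk.edges_cons, List.mem_cons, Walk.edges_cons, List.mem_cons] at he
        rcases he with he | he | he
        · left; rw [he]; simp
        · left; rw [he]; simp
        · rcases h4 e he with h5 | h5
          · exact Or.inl h5
          · right
            simp only [Walk.edges_cons, List.map_cons, List.mem_cons]
            exact Or.inr h5

theorem exp_cycle (hab : a ≠ b) (ha : H.Adj z a) (hb : H.Adj z b) (hnab : ¬ H.Adj a b)
    (l : Sym2 V → ℕ) {x : {v // v ≠ z}} (w : (supp H z a b hab).Walk x x) (hw : w.IsCycle) :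
    ∃ w' : H.Walk x.1 x.1, w'.IsCycle ∧ (w'.edges.map l).sum = (w.edges.map (len1 l z a b)).sum := by
  cases w with
  | nil => exact absurd hw (by simp)
  | @cons _ y _ h w =>
    rw [Walk.cons_isCycle_iff] at hw
    obtain ⟨w', h1, h2, h3, h4⟩ := exp_path hab ha hb hnab l w hw.1
    by_cases hadj : H.Adj x.1 y.1
    · refine ⟨Walk.cons hadj w', ?_, ?_⟩
      · rw [Walk.cons_isCycle_iff]
        refine ⟨h1, fun he => ?_⟩
        rcases h4 _ he with h5 | h5
        · rw [Sym2.mem_iff] at h5
          rcases h5 with h5 | h5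
          · exact x.2 h5.symm
          · exact y.2 h5.symm
        · rw [List.mem_map] at h5
          obtain ⟨e, he, hee⟩ := h5
          have : e = s(x, y) := by
            apply Sym2.map.injective Subtype.val_injective
            rw [hee, Sym2.map_mk]
          rw [this] at he
          exact hw.2 he
      · simp only [Walk.edges_cons, List.map_cons, List.sum_cons]
        rw [h2]
        congr 1
        unfold len1
        rw [if_neg]
        · rfl
        · intro h5
          rw [Sym2.map_mk, Sym2.eq_iff] at h5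
          rcases h5 with ⟨h5, h6⟩ | ⟨h5, h6⟩
          · rw [h5, h6] at hadj; exact hnab hadj
          · rw [h5, h6] at hadj; exact hnab hadj.symm
    · have hcase : (x.1 = a ∧ y.1 = b) ∨ (x.1 = b ∧ y.1 = a) := by
        rcases h with h | h
        · exact absurd h hadj
        · exact h
      have hxz : H.Adj x.1 z := by
        rcases hcase with ⟨h5, -⟩ | ⟨h5, -⟩
        · rw [h5]; exact ha.symm
        · rw [h5]; exact hb.symm
      have hzy : H.Adj z y.1 := by
        rcases hcase with ⟨-, h5⟩ | ⟨-, h5⟩
        · rw [h5]; exact hb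
        · rw [h5]; exact ha
      have hsab : s(x.1, y.1) = s(a, b) := by
        rcases hcase with ⟨h5, h6⟩ | ⟨h5, h6⟩
        · rw [h5, h6]
        · rw [h5, h6, Sym2.eq_swap]
      have hzw : z ∉ w'.support := by
        intro hz
        rcases h3 z hz with ⟨-, h6⟩ | ⟨u, hu, huv⟩
        · rw [List.mem_map] at h6
          obtain ⟨e, he, hee⟩ := h6
          have : e = s(x, y) := by
            apply Sym2.map.injective Subtype.val_injective
            rw [hee, Sym2.map_mk, hsab]
          rw [this] at he
          exact hw.2 he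
        · exact u.2 huv
      refine ⟨Walk.cons hxz (Walk.cons hzy w'), ?_, ?_⟩
      · rw [Walk.cons_isCycle_iff, Walk.cons_isPath_iff]
        refine ⟨⟨h1, hzw⟩, ?_⟩
        rw [Walk.edges_cons, List.mem_cons]
        rintro (h5 | h5)
        · rw [Sym2.eq_iff] at h5
          rcases h5 with ⟨h5, -⟩ | ⟨h5, -⟩
          · exact x.2 h5
          · have : x.1 ≠ y.1 := by
              rcases hcase with ⟨h6, h7⟩ | ⟨h6, h7⟩
              · rw [h6, h7]; exact hab
              · rw [h6, h7]; exact hab.symm
            exact this h5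
        · exact hzw (w'.snd_mem_support_of_mem_edges h5)
      · simp only [Walk.edges_cons, List.map_cons, List.sum_cons]
        rw [h2]
        unfold len1
        rw [Sym2.map_mk, if_pos hsab]
        rcases hcase with ⟨h5, h6⟩ | ⟨h5, h6⟩
        · rw [h5, h6]; ring
        · rw [h5, h6, Sym2.eq_swap (a := b) (b := z), Sym2.eq_swap (a := z) (b := a)]; ring

end suppress

section final

theorem num {k : ℕ} (hk : 1 ≤ k) : (1 - (1 / 2 : ℝ) ^ k) ^ (3 * 2 ^ k - 2) ≤ 1 / 16 := by
  rcases Nat.lt_or_ge k 4 with h | h
  · interval_cases k <;> norm_num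
  · set m : ℝ := 2 ^ k with hm
    have hm16 : (16 : ℝ) ≤ m := by
      rw [hm]
      calc (16 : ℝ) = 2 ^ 4 := by norm_num
        _ ≤ 2 ^ k := pow_le_pow_right₀ (by norm_num) h
    have h1 : (1 / 2 : ℝ) ^ k = 1 / m := by rw [hm, one_div_pow]
    rw [h1]
    have h2 : 1 - 1 / m ≤ Real.exp (-(1 / m)) := by
      have := Real.add_one_le_exp (-(1 / m)); linarith
    have h0 : 0 ≤ 1 - 1 / m := by
      have : 1 / m ≤ 1 := by
        rw [div_le_one (by linarith)]; linarith
      linarith
    calc (1 - 1 / m) ^ (3 * 2 ^ k - 2) ≤ (Real.exp (-(1 / m))) ^ (3 * 2 ^ k - 2) :=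
          pow_le_pow_left₀ h0 h2 _
      _ = Real.exp (((3 * 2 ^ k - 2 : ℕ) : ℝ) * (-(1 / m))) := by rw [Real.exp_nat_mul]
      _ ≤ Real.exp (-(4 * Real.log 2)) := by
          apply Real.exp_le_exp.2
          have h3 : ((3 * 2 ^ k - 2 : ℕ) : ℝ) = 3 * m - 2 := by
            have : 2 ≤ 3 * 2 ^ k := by
              have : 1 ≤ 2 ^ k := Nat.one_le_two_pow
              omega
            rw [Nat.cast_sub this, hm]; push_cast; ring
          rw [h3]
          have h4 : (3 * m - 2) * (-(1 / m)) = -3 + 2 * (1 / m) := by
            field_simp; ring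
          rw [h4]
          have h5 : 1 / m ≤ 1 / 16 := one_div_le_one_div_of_le (by norm_num) hm16
          have := Real.log_two_lt_d9
          linarith
      _ = 1 / 16 := by
          rw [Real.exp_neg]
          have : (4 : ℝ) * Real.log 2 = Real.log (2 ^ 4) := by rw [Real.log_pow]; norm_num
          rw [this, Real.exp_log (by norm_num)]
          norm_num

theorem mad_use {C : (V : Type) → SimpleGraph V → Prop} {d : ℝ} (h : MadLE C d)
    {V : Type} [Fintype V] {G : SimpleGraph V} (hG : C V G) :
    2 * (G.edgeSet.ncard : ℝ) ≤ d * Fintype.card V := by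
  rcases isEmpty_or_nonempty V with hV | hV
  · have : G.edgeSet = ∅ := by
      rw [Set.eq_empty_iff_forall_notMem]
      intro e he
      induction e with
      | _ x y => exact hV.elim x
    rw [this]; simp
  · have := h V G hG ⊤ (by simp)
    simpa [Set.ncard_univ, Nat.card_eq_fintype_card] using this

theorem core {C : (V : Type) → SimpleGraph V → Prop} (hC : MinorClosed C) {d : ℝ} (hd : 3 ≤ d)
    (hmad : MadLE C d) {V : Type} [Fintype V] [Nonempty V] {G : SimpleGraph V} (hG : C V G)
    (hdeg : ∀ v, 3 ≤ dg G v)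
    (hg : ∀ (a : V) (w : G.Walk a a), w.IsCycle → 4 * Real.logb 2 (d - 2) + 8 ≤ w.length) :
    False := by
  have hy : 1 ≤ d - 2 := by linarith
  have hlog : 0 ≤ Real.logb 2 (d - 2) := Real.logb_nonneg (by norm_num) hy
  set t := 4 * Real.logb 2 (d - 2) + 8 with ht
  set g := ⌈t⌉₊ with hgdef
  have hgt : t ≤ g := Nat.le_ceil t
  have hg8 : 8 ≤ g := by
    have : (8 : ℝ) ≤ g := by linarith
    exact_mod_cast this
  set k := (g - 3) / 4 with hk
  have hk1 : 4 * k + 3 ≤ g := by omega
  have hk2 : g ≤ 4 * k + 6 := by omega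
  have hk0 : 1 ≤ k := by omega
  have hg' : ∀ (a : V) (w : G.Walk a a), w.IsCycle → 4 * k + 3 ≤ w.length := by
    intro a w hw
    exact hk1.trans (Nat.ceil_le.2 (hg a w hw))
  have hM : ∀ X : Finset V, 2 * ((cellGraph G X k).edgeSet.ncard : ℝ) ≤ d * X.card := by
    intro X
    have := mad_use hmad (hC _ _ _ _ (cellGraph_minor G X k) hG)
    simpa using this
  have hmain := main_ineq hg' hdeg hM (p := (1 / 2) ^ k) (q := 1 / 16) (by positivity)
    (pow_le_one₀ (by norm_num) (by norm_num)) (num hk0) (by norm_num)
  have h2k : (0 : ℝ) < 2 ^ k := by positivity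
  have h1 : (3 / 4 : ℝ) * 2 ^ k ≤ d - 2 := by
    have : ((1 : ℝ) / 2) ^ k * 2 ^ k = 1 := by rw [← mul_pow]; norm_num
    nlinarith
  have h2 : 2 * Real.logb 2 (d - 2) + 1 ≤ 2 * (k : ℝ) := by
    have : (g : ℝ) ≤ 4 * k + 6 := by exact_mod_cast hk2
    linarith
  have h3 : (2 : ℝ) * (d - 2) ^ 2 ≤ (2 ^ k) ^ 2 := by
    have h4 := Real.rpow_le_rpow_of_exponent_le (x := 2) (by norm_num) h2
    have h5 : (2 : ℝ) ^ (2 * Real.logb 2 (d - 2) + 1) = 2 * (d - 2) ^ 2 := by
      rw [Real.rpow_add (by norm_num), Real.rpow_one, mul_comm 2 (Real.logb 2 (d - 2)),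
        Real.rpow_mul (by norm_num), Real.rpow_logb (by norm_num) (by norm_num) (by linarith)]
      rw [mul_comm]
      norm_num
    have h6 : (2 : ℝ) ^ (2 * (k : ℝ)) = (2 ^ k) ^ 2 := by
      rw [mul_comm, Real.rpow_mul (by norm_num), Real.rpow_natCast]
      norm_num
    rw [h5, h6] at h4
    exact h4
  nlinarith

theorem reduce {C : (V : Type) → SimpleGraph V → Prop} (hC : MinorClosed C) {d : ℝ} (hd : 3 ≤ d)
    (hmad : MadLE C d) {L : ℕ} (hL : 1 ≤ L) (n : ℕ) : ∀ (V : Type) [Fintype V] [Nonempty V]
    (H : SimpleGraph V) (l : Sym2 V → ℕ), Fintype.card V = n → C V H → (∀ v, 2 ≤ dg H v) →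
    (∀ (a : V) (w : H.Walk a a), w.IsCycle →
      (4 * Real.logb 2 (d - 2) + 8) * L ≤ ((w.edges.map l).sum : ℕ)) →
    (∀ (a b : V) (w : H.Walk a b), w.IsPath → (∀ x ∈ w.support, x ≠ a → x ≠ b → dg H x = 2) →
      (w.edges.map l).sum ≤ L) → False := by
  have hy : 1 ≤ d - 2 := by linarith
  have hlog : 0 ≤ Real.logb 2 (d - 2) := Real.logb_nonneg (by norm_num) hy
  have hLr : (1 : ℝ) ≤ L := by exact_mod_cast hL
  induction n with
  | zero =>
    intro V _ _ H l hn
    exact absurd hn (Fintype.card_pos.ne')
  | succ n ih =>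
    intro V _ _ H l hn hCH h2 h3 h4
    classical
    by_cases hz : ∃ z, dg H z = 2
    · obtain ⟨z, hz⟩ := hz
      have hz' := hz
      unfold dg at hz'
      rw [Finset.card_eq_two] at hz'
      obtain ⟨a, b, hab, hN⟩ := hz'
      have hadj : ∀ v, H.Adj z v ↔ v = a ∨ v = b := by
        intro v
        have : v ∈ (Finset.univ.filter fun w => H.Adj z w) ↔ v ∈ ({a, b} : Finset V) := by rw [hN]
        simpa using this
      have ha : H.Adj z a := (hadj a).2 (Or.inl rfl)
      have hb : H.Adj z b := (hadj b).2 (Or.inr rfl)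
      have hnab : ¬ H.Adj a b := by
        intro hadjab
        have hcyc : (Walk.cons ha.symm (Walk.cons hb (Walk.cons hadjab.symm Walk.nil)) :
            H.Walk a a).IsCycle := by
          rw [Walk.cons_isCycle_iff]
          refine ⟨?_, ?_⟩
          · simp [Walk.cons_isPath_iff, hab.symm, ha.ne, hb.ne]
          · simp [hab, ha.ne, ha.ne', hb.ne, hb.ne']
        have e1 := h3 a _ hcyc
        have e2 := h4 a b (Walk.cons ha.symm (Walk.cons hb Walk.nil)) (by
          simp [Walk.cons_isPath_iff, hab, ha.ne', hb.ne]) (by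
          intro x hx hxa hxb
          simp only [Walk.support_cons, Walk.support_nil, List.mem_cons, List.not_mem_nil,
            or_false] at hx
          rcases hx with h | h | h
          · exact absurd h hxa
          · rw [h]; exact hz
          · exact absurd h hxb)
        have e3 := h4 b a (Walk.cons hadjab.symm Walk.nil) (by
          simp [Walk.cons_isPath_iff, hab.symm]) (by
          intro x hx hxa hxb
          simp only [Walk.support_cons, Walk.support_nil, List.mem_cons, List.not_mem_nil,
            or_false] at hx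
          rcases hx with h | h
          · exact absurd h hxa
          · exact absurd h hxb)
        simp only [Walk.edges_cons, Walk.edges_nil, List.map_cons, List.map_nil, List.sum_cons,
          List.sum_nil] at e1 e2 e3
        have e4 : l s(a, z) + (l s(z, b) + (l s(b, a) + 0)) ≤ 2 * L := by omega
        have e5 : (((l s(a, z) + (l s(z, b) + (l s(b, a) + 0)) : ℕ)) : ℝ) ≤ 2 * L := by exact_mod_cast e4
        have e6 : (4 * Real.logb 2 (d - 2) + 8) * L ≤ 2 * L := e1.trans e5
        nlinarith
      have hcard : Fintype.card {v // v ≠ z} = n := by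
        rw [Fintype.card_subtype_compl, Fintype.card_subtype_eq]; omega
      have hne : Nonempty {v // v ≠ z} := ⟨⟨a, ha.ne'⟩⟩
      refine ih {v // v ≠ z} (supp H z a b hab) (len1 l z a b) hcard
        (hC _ _ _ _ (supp_minor hab ha hb) hCH) ?_ ?_ ?_
      · intro v
        rw [supp_dg hab hadj hnab]
        exact h2 v.1
      · intro x w hw
        obtain ⟨w', h5, h6⟩ := exp_cycle hab ha hb hnab l w hw
        rw [← h6]
        exact h3 _ w' h5
      · intro x y w hw hint
        obtain ⟨w', h5, h6, h7, -⟩ := exp_path hab ha hb hnab l w hw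
        rw [← h6]
        apply h4 _ _ w' h5
        intro v hv hvx hvy
        rcases h7 v hv with ⟨h8, -⟩ | ⟨u, hu, huv⟩
        · rw [h8]; exact hz
        · rw [← huv, ← supp_dg hab hadj hnab]
          apply hint u hu
          · intro h; apply hvx; rw [← huv, h]
          · intro h; apply hvy; rw [← huv, h]
    · have hdeg : ∀ v, 3 ≤ dg H v := by
        intro v
        have := h2 v
        rcases Nat.lt_or_ge 2 (dg H v) with h | h
        · exact h
        · exact absurd ⟨v, le_antisymm h this⟩ hz
      apply core hC hd hmad hCH hdeg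
      intro a w hw
      have h5 := h3 a w hw
      have h6 : ∀ e ∈ w.edges, l e ≤ L := by
        intro e he
        induction e with
        | _ x y =>
          have hxy : H.Adj x y := w.edges_subset_edgeSet he
          have := h4 x y (Walk.cons hxy Walk.nil) (by simp [Walk.cons_isPath_iff, hxy.ne]) (by
            intro v hv hvx hvy
            simp only [Walk.support_cons, Walk.support_nil, List.mem_cons, List.not_mem_nil,
              or_false] at hv
            rcases hv with h | h
            · exact absurd h hvx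
            · exact absurd h hvy)
          simpa using this
      have h7 : (w.edges.map l).sum ≤ w.length * L := by
        have := List.sum_le_card_nsmul (w.edges.map l) L (by
          intro m hm
          rw [List.mem_map] at hm
          obtain ⟨e, he, rfl⟩ := hm
          exact h6 e he)
        simpa using this
      have h8 : ((w.edges.map l).sum : ℝ) ≤ w.length * L := by exact_mod_cast h7
      have h9 : (4 * Real.logb 2 (d - 2) + 8) * L ≤ w.length * L := h5.trans h8
      exact le_of_mul_le_mul_right h9 (by linarith)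

/-- the restriction of `G` to `S` -/
def res {V : Type} (G : SimpleGraph V) (S : Finset V) : SimpleGraph V where
  Adj x y := x ∈ S ∧ y ∈ S ∧ G.Adj x y
  symm := ⟨fun _ _ h => ⟨h.2.1, h.1, h.2.2.symm⟩⟩
  loopless := ⟨fun _ h => G.irrefl h.2.2⟩

open Classical in
theorem exists_core {p : ℕ} (hp : 2 ≤ p) {V : Type} (G : SimpleGraph V) (n : ℕ) :
    ∀ S : Finset V, S.card = n → Built p (S : Set V) (res G S) ∨
      ∃ T : Finset V, T.Nonempty ∧ (∀ v ∈ T, 2 ≤ (T.filter (G.Adj v)).card) ∧
        ¬ ∃ f : ℕ → V, Set.InjOn f (Set.Iic p) ∧ (∀ i ≤ p, f i ∈ T) ∧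
          (∀ i < p, G.Adj (f i) (f (i + 1))) ∧
          ∀ i, 0 < i → i < p → (T.filter (G.Adj (f i))).card = 2 := by
  induction n using Nat.strong_induction_on with
  | _ n ih =>
    intro S hS
    rcases S.eq_empty_or_nonempty with rfl | hne
    · left
      have : res G ∅ = ⊥ := by
        ext x y; simp [res]
      rw [this, Finset.coe_empty]
      exact Built.empty
    by_cases h1 : ∀ v ∈ S, 2 ≤ (S.filter (G.Adj v)).card
    · by_cases h2 : ∃ f : ℕ → V, Set.InjOn f (Set.Iic p) ∧ (∀ i ≤ p, f i ∈ S) ∧
          (∀ i < p, G.Adj (f i) (f (i + 1))) ∧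
          ∀ i, 0 < i → i < p → (S.filter (G.Adj (f i))).card = 2
      · obtain ⟨f, hf1, hf2, hf3, hf4⟩ := h2
        set I := (Finset.Ioo 0 p).image f with hI
        have hmemI : ∀ v, v ∈ I ↔ ∃ i, 0 < i ∧ i < p ∧ f i = v := by
          intro v
          rw [hI, Finset.mem_image]
          constructor
          · rintro ⟨i, hi, h⟩
            rw [Finset.mem_Ioo] at hi
            exact ⟨i, hi.1, hi.2, h⟩
          · rintro ⟨i, h1, h2, h3⟩
            exact ⟨i, by rw [Finset.mem_Ioo]; exact ⟨h1, h2⟩, h3⟩
        have hIS : I ⊆ S := by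
          intro v hv
          obtain ⟨i, h3, h4, h5⟩ := (hmemI v).1 hv
          rw [← h5]; exact hf2 i h4.le
        have hlt : (S \ I).card < n := by
          rw [← hS]
          apply Finset.card_lt_card
          refine ⟨Finset.sdiff_subset, fun h => ?_⟩
          have h3 := h (hf2 1 (by omega))
          rw [Finset.mem_sdiff] at h3
          exact h3.2 ((hmemI _).2 ⟨1, by omega, by omega, rfl⟩)
        rcases ih _ hlt (S \ I) rfl with h3 | h3
        · left
          have hinj : ∀ i ≤ p, ∀ j ≤ p, f i = f j → i = j := fun i hi j hj h => hf1 hi hj h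
          have h4 := Built.path _ _ f h3 hf1 (by
              rw [Finset.mem_coe, Finset.mem_sdiff, hmemI]
              refine ⟨hf2 0 (by omega), ?_⟩
              rintro ⟨i, h5, h6, h7⟩
              have := hinj i h6.le 0 (by omega) h7
              omega) (by
              rw [Finset.mem_coe, Finset.mem_sdiff, hmemI]
              refine ⟨hf2 p le_rfl, ?_⟩
              rintro ⟨i, h5, h6, h7⟩
              have := hinj i h6.le p le_rfl h7
              omega) (by
              intro i h5 h6
              rw [Finset.mem_coe, Finset.mem_sdiff, hmemI]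
              rintro ⟨-, h7⟩
              exact h7 ⟨i, h5, h6, rfl⟩)
          have e1 : ((S \ I : Finset V) : Set V) ∪ f '' Set.Ioo 0 p = (S : Set V) := by
            ext v
            rw [Set.mem_union, Finset.mem_coe, Finset.mem_sdiff, Finset.mem_coe, Set.mem_image]
            constructor
            · rintro (h | ⟨i, hi, h⟩)
              · exact h.1
              · rw [← h]; exact hf2 i hi.2.le
            · intro h
              by_cases hv : v ∈ I
              · obtain ⟨i, h5, h6, h7⟩ := (hmemI v).1 hv
                exact Or.inr ⟨i, ⟨h5, h6⟩, h7⟩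
              · exact Or.inl ⟨h, hv⟩
          have hnb : ∀ i, 0 < i → i < p → ∀ y ∈ S, G.Adj (f i) y → y = f (i - 1) ∨ y = f (i + 1) := by
            intro i h5 h6 y hy hadj
            have h7 : ({f (i - 1), f (i + 1)} : Finset V) ⊆ S.filter (G.Adj (f i)) := by
              intro v hv
              rw [Finset.mem_insert, Finset.mem_singleton] at hv
              rw [Finset.mem_filter]
              rcases hv with hv | hv
              · rw [hv]
                refine ⟨hf2 _ (by omega), ?_⟩
                have := hf3 (i - 1) (by omega)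
                rw [Nat.sub_add_cancel (by omega)] at this
                exact this.symm
              · rw [hv]
                exact ⟨hf2 _ (by omega), hf3 i h6⟩
            have h8 : ({f (i - 1), f (i + 1)} : Finset V).card = 2 := by
              apply Finset.card_pair
              intro h
              have := hinj (i - 1) (by omega) (i + 1) (by omega) h
              omega
            have h9 := Finset.eq_of_subset_of_card_le h7 (by rw [h8, hf4 i h5 h6])
            have h10 : y ∈ ({f (i - 1), f (i + 1)} : Finset V) := by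
              rw [h9, Finset.mem_filter]; exact ⟨hy, hadj⟩
            rw [Finset.mem_insert, Finset.mem_singleton] at h10
            exact h10
          have e2 : res G (S \ I) ⊔ SimpleGraph.fromEdgeSet {e | ∃ i < p, e = s(f i, f (i + 1))}
              = res G S := by
            ext x y
            rw [SimpleGraph.sup_adj, SimpleGraph.fromEdgeSet_adj]
            constructor
            · rintro (⟨h5, h6, h7⟩ | ⟨⟨i, h5, h6⟩, h7⟩)
              · exact ⟨(Finset.mem_sdiff.1 h5).1, (Finset.mem_sdiff.1 h6).1, h7⟩
              · rw [Sym2.eq_iff] at h6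
                rcases h6 with ⟨h6, h8⟩ | ⟨h6, h8⟩
                · rw [h6, h8]
                  exact ⟨hf2 i h5.le, hf2 (i + 1) (by omega), hf3 i h5⟩
                · rw [h6, h8]
                  exact ⟨hf2 (i + 1) (by omega), hf2 i h5.le, (hf3 i h5).symm⟩
            · rintro ⟨h5, h6, h7⟩
              have key : ∀ x y, x ∈ S → y ∈ S → G.Adj x y → x ∈ I →
                  ∃ i < p, s(x, y) = s(f i, f (i + 1)) := by
                intro x y hx hy hxy hxI
                obtain ⟨i, h8, h9, rfl⟩ := (hmemI x).1 hxI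
                rcases hnb i h8 h9 y hy hxy with h10 | h10
                · refine ⟨i - 1, by omega, ?_⟩
                  rw [h10, Nat.sub_add_cancel (by omega), Sym2.eq_swap]
                · exact ⟨i, h9, by rw [h10]⟩
              by_cases hxI : x ∈ I
              · exact Or.inr ⟨key x y h5 h6 h7 hxI, h7.ne⟩
              · by_cases hyI : y ∈ I
                · right
                  refine ⟨?_, h7.ne⟩
                  have := key y x h6 h5 h7.symm hyI
                  rwa [Sym2.eq_swap] at this
                · left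
                  exact ⟨Finset.mem_sdiff.2 ⟨h5, hxI⟩, Finset.mem_sdiff.2 ⟨h6, hyI⟩, h7⟩
          rw [e1, e2] at h4
          exact h4
        · exact Or.inr h3
      · exact Or.inr ⟨S, hne, h1, h2⟩
    · push Not at h1
      obtain ⟨v, hv, hdeg⟩ := h1
      have hlt : (S.erase v).card < n := by
        rw [← hS]; exact Finset.card_erase_lt_of_mem hv
      rcases ih _ hlt (S.erase v) rfl with h3 | h3
      · left
        have hvS : v ∉ ((S.erase v : Finset V) : Set V) := by simp
        have e1 : insert v ((S.erase v : Finset V) : Set V) = (S : Set V) := by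
          rw [← Finset.coe_insert, Finset.insert_erase hv]
        rcases Nat.eq_zero_or_pos (S.filter (G.Adj v)).card with h0 | hpos
        · have h4 := Built.isolated _ _ v h3 hvS
          have hno : ∀ y ∈ S, ¬ G.Adj v y := by
            intro y hy hadj
            rw [Finset.card_eq_zero] at h0
            have : y ∈ S.filter (G.Adj v) := Finset.mem_filter.2 ⟨hy, hadj⟩
            rw [h0] at this
            exact absurd this (Finset.notMem_empty _)
          have e2 : res G (S.erase v) = res G S := by
            ext x y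
            constructor
            · rintro ⟨h5, h6, h7⟩
              exact ⟨Finset.mem_of_mem_erase h5, Finset.mem_of_mem_erase h6, h7⟩
            · rintro ⟨h5, h6, h7⟩
              refine ⟨Finset.mem_erase.2 ⟨fun h => ?_, h5⟩, Finset.mem_erase.2 ⟨fun h => ?_, h6⟩, h7⟩
              · rw [h] at h7; exact hno y h6 h7
              · rw [h] at h7; exact hno x h5 h7.symm
          rw [e1, e2] at h4
          exact h4
        · have h1c : (S.filter (G.Adj v)).card = 1 := by omega
          rw [Finset.card_eq_one] at h1c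
          obtain ⟨u, hu⟩ := h1c
          have hmem : ∀ y, y ∈ S ∧ G.Adj v y ↔ y = u := by
            intro y
            rw [← Finset.mem_filter, hu, Finset.mem_singleton]
          have huu := (hmem u).2 rfl
          have h4 := Built.pendant _ _ v u h3 hvS (by
            rw [Finset.mem_coe, Finset.mem_erase]
            exact ⟨huu.2.ne', huu.1⟩)
          have e2 : res G (S.erase v) ⊔ SimpleGraph.fromEdgeSet {s(v, u)} = res G S := by
            ext x y
            rw [SimpleGraph.sup_adj, SimpleGraph.fromEdgeSet_adj, Set.mem_singleton_iff, Sym2.eq_iff]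
            constructor
            · rintro (⟨h5, h6, h7⟩ | ⟨⟨h5, h6⟩ | ⟨h5, h6⟩, h7⟩)
              · exact ⟨Finset.mem_of_mem_erase h5, Finset.mem_of_mem_erase h6, h7⟩
              · rw [h5, h6]; exact ⟨hv, huu.1, huu.2⟩
              · rw [h5, h6]; exact ⟨huu.1, hv, huu.2.symm⟩
            · rintro ⟨h5, h6, h7⟩
              by_cases hx : x = v
              · right
                rw [hx] at h7
                exact ⟨Or.inl ⟨hx, (hmem y).1 ⟨h6, h7⟩⟩, by rw [hx]; exact h7.ne⟩
              · by_cases hy : y = v
                · right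
                  rw [hy] at h7
                  exact ⟨Or.inr ⟨(hmem x).1 ⟨h5, h7.symm⟩, hy⟩, by rw [hy]; exact h7.ne⟩
                · exact Or.inl ⟨Finset.mem_erase.2 ⟨hx, h5⟩, Finset.mem_erase.2 ⟨hy, h6⟩, h7⟩
          rw [e1, e2] at h4
          exact h4
      · exact Or.inr h3

theorem induce_minor {V : Type} (G : SimpleGraph V) (S : Set V) : IsMinor (G.induce S) G := by
  refine ⟨fun x => {x.1}, ?_, ?_, ?_⟩
  · intro x
    rw [connected_iff_exists_forall_reachable]
    refine ⟨⟨x.1, rfl⟩, ?_⟩
    rintro ⟨v, hv⟩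
    have : v = x.1 := hv
    subst this
    exact Reachable.refl _
  · intro x y hxy
    rw [Set.disjoint_singleton]
    exact fun h => hxy (Subtype.ext h)
  · intro x y h
    exact ⟨x.1, rfl, y.1, rfl, h⟩

theorem girth_bound (C : (V : Type) → SimpleGraph V → Prop) (hC : MinorClosed C)
    (d : ℝ) (hd : 3 ≤ d) (hmad : MadLE C d) (p : ℕ) (hp : 2 ≤ p)
    (V : Type) [Finite V] (G : SimpleGraph V) (hG : C V G)
    (hg : ∀ (a : V) (w : G.Walk a a), w.IsCycle →
      (4 * Real.logb 2 (d - 2) + 8) * ((p : ℝ) - 1) ≤ w.length) :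
    PathDegenerate p G := by
  classical
  have : Fintype V := Fintype.ofFinite V
  rcases exists_core hp G _ Finset.univ rfl with h | ⟨T, hne, h1, h2⟩
  · have e : res G Finset.univ = G := by
      ext x y; simp [res]
    rw [e, Finset.coe_univ] at h
    exact h
  · exfalso
    have hneT : Nonempty (T : Set V) := by
      obtain ⟨x, hx⟩ := hne
      exact ⟨⟨x, hx⟩⟩
    have hdg : ∀ v : (T : Set V), dg (G.induce (T : Set V)) v = (T.filter (G.Adj v.1)).card := by
      intro v
      unfold dg
      rw [← Finset.card_image_of_injective _ Subtype.val_injective]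
      congr 1
      ext x
      simp only [Finset.mem_image, Finset.mem_filter, Finset.mem_univ, true_and, comap_adj,
        Function.Embedding.subtype_apply]
      constructor
      · rintro ⟨y, hy, rfl⟩
        exact ⟨y.2, hy⟩
      · rintro ⟨hx, hy⟩
        exact ⟨⟨x, hx⟩, hy, rfl⟩
    refine reduce hC hd hmad (L := p - 1) (by omega) _ (T : Set V) (G.induce (T : Set V))
      (fun _ => 1) rfl (hC _ _ _ _ (induce_minor G _) hG) ?_ ?_ ?_
    · intro v
      rw [hdg]
      exact h1 v.1 v.2
    · intro a w hw
      have h3 := hg _ (w.map (SimpleGraph.Embedding.induce (G := G) (T : Set V)).toHom)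
        (hw.map (SimpleGraph.Embedding.induce (G := G) (T : Set V)).injective)
      rw [Walk.length_map] at h3
      have h4 : ((p - 1 : ℕ) : ℝ) = (p : ℝ) - 1 := by
        rw [Nat.cast_sub (by omega)]; simp
      rw [h4]
      simpa using h3
    · intro a b w hw hint
      have h5 : (w.edges.map (fun _ => 1)).sum = w.length := by simp
      rw [h5]
      by_contra hlt
      push Not at hlt
      have hpl : p ≤ w.length := by omega
      apply h2
      refine ⟨fun i => (w.getVert i).1, ?_, ?_, ?_, ?_⟩
      · intro i hi j hj hij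
        exact hw.getVert_injOn (by simp only [Set.mem_Iic, Set.mem_setOf_eq] at hi ⊢; omega)
          (by simp only [Set.mem_Iic, Set.mem_setOf_eq] at hj ⊢; omega) (Subtype.ext hij)
      · intro i _
        exact (w.getVert i).2
      · intro i hi
        exact w.adj_getVert_succ (by omega)
      · intro i h6 h7
        rw [← hdg]
        apply hint _ (w.getVert_mem_support i)
        · intro h
          have := hw.getVert_injOn (x₁ := i) (x₂ := 0) (by simp only [Set.mem_setOf_eq]; omega)
            (by simp) (by rw [h, Walk.getVert_zero])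
          omega
        · intro h
          have := hw.getVert_injOn (x₁ := i) (x₂ := w.length) (by simp only [Set.mem_setOf_eq]; omega)
            (by simp) (by rw [h, Walk.getVert_length])
          omega

end final

end PD18
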